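import Pool.Agent.Helper19.HO.Defs
import Mathlib.Analysis.Convex.Combination
import Mathlib.Analysis.Normed.Module.Convex

/-!
# Project HO (MP_19c155_gt), piece HO-3: mesh of the barycentric subdivisions
-/

open Set Metric

namespace Pool.Agent.Helper19.HO

theorem bary_mem {V : Type*} [AddCommGroup V] [Module ℝ V] {K : Set V} (hK : Convex ℝ K) {k : ℕ}
    {v : Fin (k + 1) → V} (hv : ∀ i, v i ∈ K) (s : Equiv.Perm (Fin (k + 1))) (j : Fin (k + 1)) :
    bary v s j ∈ K := by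
  unfold bary
  rw [Finset.smul_sum]
  have hj : (0 : ℝ) < ((j : ℕ) : ℝ) + 1 := by positivity
  refine hK.sum_mem (fun i _ => (inv_pos.2 hj).le) ?_ (fun i _ => hv _)
  rw [Finset.sum_const, Fin.card_Iic, nsmul_eq_mul]
  push_cast
  exact mul_inv_cancel₀ hj.ne'

private theorem dist_bary_aux {V : Type*} [NormedAddCommGroup V] [NormedSpace ℝ V] {k : ℕ}
    {v : Fin (k + 1) → V} {D : ℝ} (hv : ∀ i j, dist (v i) (v j) ≤ D)
    (s : Equiv.Perm (Fin (k + 1))) {i j : Fin (k + 1)} (hij : i ≤ j) :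
    dist (bary v s j) (bary v s i) ≤ (k : ℝ) / (k + 1) * D := by
  have hD : 0 ≤ D := dist_nonneg.trans (hv 0 0)
  have hi : (0 : ℝ) < ((i : ℕ) : ℝ) + 1 := by positivity
  have hj : (0 : ℝ) < ((j : ℕ) : ℝ) + 1 := by positivity
  have hk : (0 : ℝ) < (k : ℝ) + 1 := by positivity
  have hjk : ((j : ℕ) : ℝ) ≤ k := by
    have := Nat.lt_succ_iff.1 j.2
    exact_mod_cast this
  have hij' : ((i : ℕ) : ℝ) ≤ ((j : ℕ) : ℝ) := by
    have : (i : ℕ) ≤ (j : ℕ) := hij
    exact_mod_cast this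
  -- the sum over `Iic j` splits
  have hsplit : Finset.Iic j = Finset.Iic i ∪ Finset.Ioc i j := by
    ext l
    simp only [Finset.mem_Iic, Finset.mem_union, Finset.mem_Ioc]
    constructor
    · intro h
      rcases le_or_gt l i with h' | h'
      · exact Or.inl h'
      · exact Or.inr ⟨h', h⟩
    · rintro (h | h)
      · exact h.trans hij
      · exact h.2
  have hdisj : Disjoint (Finset.Iic i) (Finset.Ioc i j) := by
    rw [Finset.disjoint_left]
    intro l h1 h2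
    exact absurd (Finset.mem_Iic.1 h1) (not_le.2 (Finset.mem_Ioc.1 h2).1)
  have hbi : ∑ l ∈ Finset.Iic i, v (s l) = (((i : ℕ) : ℝ) + 1) • bary v s i := by
    unfold bary
    rw [smul_smul, mul_inv_cancel₀ hi.ne', one_smul]
  have hbj : ∑ l ∈ Finset.Iic j, v (s l) = (((j : ℕ) : ℝ) + 1) • bary v s j := by
    unfold bary
    rw [smul_smul, mul_inv_cancel₀ hj.ne', one_smul]
  have hcard : ((Finset.Ioc i j).card : ℝ) = ((j : ℕ) : ℝ) - ((i : ℕ) : ℝ) := by
    rw [Fin.card_Ioc, Nat.cast_sub hij]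
  have hkey : bary v s j - bary v s i
      = (((j : ℕ) : ℝ) + 1)⁻¹ • ∑ l ∈ Finset.Ioc i j, (v (s l) - bary v s i) := by
    rw [eq_inv_smul_iff₀ hj.ne', Finset.sum_sub_distrib, Finset.sum_const,
      ← Nat.cast_smul_eq_nsmul ℝ, hcard, smul_sub, ← hbj, hsplit, Finset.sum_union hdisj, hbi]
    module
  rw [dist_eq_norm, hkey, norm_smul, norm_inv, Real.norm_of_nonneg hj.le]
  have hb : ‖∑ l ∈ Finset.Ioc i j, (v (s l) - bary v s i)‖
      ≤ (((j : ℕ) : ℝ) - ((i : ℕ) : ℝ)) * D := by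
    rw [← hcard, ← nsmul_eq_mul]
    refine (norm_sum_le _ _).trans (Finset.sum_le_card_nsmul _ _ _ ?_)
    intro l _
    have h1 : bary v s i ∈ closedBall (v (s l)) D :=
      bary_mem (convex_closedBall _ _) (fun m => mem_closedBall.2 (hv m (s l))) s i
    rw [← dist_eq_norm, dist_comm]
    exact mem_closedBall.1 h1
  calc (((j : ℕ) : ℝ) + 1)⁻¹ * ‖∑ l ∈ Finset.Ioc i j, (v (s l) - bary v s i)‖
      ≤ (((j : ℕ) : ℝ) + 1)⁻¹ * ((((j : ℕ) : ℝ) - ((i : ℕ) : ℝ)) * D) :=
        mul_le_mul_of_nonneg_left hb (inv_pos.2 hj).le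
    _ ≤ (k : ℝ) / (k + 1) * D := by
        rw [← mul_assoc]
        refine mul_le_mul_of_nonneg_right ?_ hD
        rw [inv_mul_eq_div, div_le_div_iff₀ hj hk]
        have : (0 : ℝ) ≤ ((i : ℕ) : ℝ) := by positivity
        nlinarith

theorem dist_bary_le {V : Type*} [NormedAddCommGroup V] [NormedSpace ℝ V] {k : ℕ}
    {v : Fin (k + 1) → V} {D : ℝ} (hv : ∀ i j, dist (v i) (v j) ≤ D)
    (s : Equiv.Perm (Fin (k + 1))) (i j : Fin (k + 1)) :
    dist (bary v s i) (bary v s j) ≤ (k : ℝ) / (k + 1) * D := by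
  rcases le_total i j with h | h
  · rw [dist_comm]
    exact dist_bary_aux hv s h
  · exact dist_bary_aux hv s h

theorem sd_iterate_congr {V : Type*} [NormedAddCommGroup V] [NormedSpace ℝ V] {k : ℕ}
    (a a' : (Fin (k + 1) → V) → ZMod 2) {K : Set V} (hK : Convex ℝ K) (N : ℕ) {D : ℝ}
    (h : ∀ w : Fin (k + 1) → V, (∀ i, w i ∈ K) →
      (∀ i j, dist (w i) (w j) ≤ ((k : ℝ) / (k + 1)) ^ N * D) → a w = a' w)
    {v : Fin (k + 1) → V} (hv : ∀ i, v i ∈ K) (hd : ∀ i j, dist (v i) (v j) ≤ D) :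
    (sd^[N] a) v = (sd^[N] a') v := by
  induction N generalizing v D with
  | zero =>
    refine h v hv (fun i j => ?_)
    rw [pow_zero, one_mul]
    exact hd i j
  | succ N ih =>
    rw [Function.iterate_succ_apply', Function.iterate_succ_apply']
    unfold sd
    refine Finset.sum_congr rfl (fun s _ => ?_)
    refine ih (D := (k : ℝ) / (k + 1) * D) (fun w hw hwd => h w hw (fun i j => ?_))
      (fun i => bary_mem hK hv s i) (fun i j => dist_bary_le hd s i j)
    rw [pow_succ, mul_assoc]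
    exact hwd i j

end Pool.Agent.Helper19.HO
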